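import Pool.Agent.Helper4.MCP.GoalsC

set_option autoImplicit false

namespace Pool.Agent.Helper7.MCP

open Pool.Agent.Helper4.MCP Pool.Agent.Helper26.MCE Pool.Agent.Helper87.MC Finset

section aux

set_option linter.unusedSectionVars false

variable {Λ : Type} [Fintype Λ] (m : Λ → ℝ)

theorem ms_mono' (h0 : ∀ l, 0 ≤ m l) {A B : Finset Λ} (h : A ⊆ B) : ms m A ≤ ms m B :=
  Finset.sum_le_sum_of_subset_of_nonneg h (fun i _ _ => h0 i)

open Classical in
theorem ms_union_le (h0 : ∀ l, 0 ≤ m l) (A B : Finset Λ) : ms m (A ∪ B) ≤ ms m A + ms m B := by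
  unfold ms
  rw [← Finset.sum_union_inter]
  have : 0 ≤ ∑ l ∈ A ∩ B, m l := Finset.sum_nonneg (fun i _ => h0 i)
  linarith

open Classical in
theorem ms_biUnion_le (h0 : ∀ l, 0 ≤ m l) {ι : Type} (s : Finset ι) (A : ι → Finset Λ) :
    ms m (s.biUnion A) ≤ ∑ i ∈ s, ms m (A i) := by
  induction s using Finset.induction_on with
  | empty => simp [ms]
  | insert a s ha ih =>
    rw [Finset.biUnion_insert, Finset.sum_insert ha]
    exact (ms_union_le m h0 _ _).trans (by linarith)

end aux

open Classical in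
theorem goalDETC : G_DETC := by
  intro G _ _ D J Λ _ e W m M Q t δ η κ₁ ω B F U₀ K hSys hJD hB ht hδ hκ hF hLD hCov hImp hK
  intro V' hV' g hbad
  have hm0 : ∀ l, 0 ≤ m l := hSys.pos
  have hV'U : V' ⊆ U₀ := hV'.trans Finset.sdiff_subset
  have hbadU : Bad D ω U₀ g := by
    intro d hd
    obtain ⟨v, hv, h⟩ := hbad d hd
    exact ⟨v, hV'U hv, h⟩
  set E : Finset (Fin M) := V'.filter (fun v => ms m B ≤ t * Helper4.MCP.hit D e m B (g - ω v)) with hE
  have hEV : E ⊆ V' := Finset.filter_subset _ _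
  -- step 1
  have hhit : ∀ v, Helper4.MCP.hit D e m B (g - ω v) = ∑ l ∈ B, if e l + (g - ω v) ∈ D then m l else 0 := by
    intro v
    unfold Helper4.MCP.hit ms
    rw [Finset.sum_filter]
  have h1 : (E.card : ℝ) * ms m B ≤ t * Q * ms m B := by
    have ha : (E.card : ℝ) * ms m B ≤ ∑ v ∈ E, t * Helper4.MCP.hit D e m B (g - ω v) := by
      rw [← nsmul_eq_mul, ← Finset.sum_const]
      apply Finset.sum_le_sum
      intro v hv
      exact (Finset.mem_filter.1 hv).2
    have hb : ∑ v ∈ E, t * Helper4.MCP.hit D e m B (g - ω v) =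
        t * ∑ l ∈ B, m l * ((E.filter (fun v => e l + (g - ω v) ∈ D)).card : ℝ) := by
      rw [← Finset.mul_sum]
      congr 1
      rw [Finset.sum_congr rfl (fun v _ => hhit v), Finset.sum_comm]
      apply Finset.sum_congr rfl
      intro l _
      rw [← Finset.sum_filter, Finset.sum_const, nsmul_eq_mul]
      ring
    have hc : ∑ l ∈ B, m l * ((E.filter (fun v => e l + (g - ω v) ∈ D)).card : ℝ) ≤
        Q * ms m B := by
      unfold ms
      rw [Finset.mul_sum]
      apply Finset.sum_le_sum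
      intro l _
      have hq := hCov (g + e l)
      have hq' : (E.filter (fun v => e l + (g - ω v) ∈ D)).card ≤ Q := by
        refine le_trans ?_ hq
        rw [Nat.card_eq_fintype_card, Fintype.card_subtype]
        apply Finset.card_le_card
        intro v hv
        rw [Finset.mem_filter] at hv ⊢
        refine ⟨Finset.mem_univ _, ?_⟩
        have : g + e l - ω v = e l + (g - ω v) := by abel
        rw [this]
        exact hv.2
      have hq'' : ((E.filter (fun v => e l + (g - ω v) ∈ D)).card : ℝ) ≤ Q := by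
        exact_mod_cast hq'
      calc m l * ((E.filter (fun v => e l + (g - ω v) ∈ D)).card : ℝ) ≤ m l * Q :=
            mul_le_mul_of_nonneg_left hq'' (hm0 l)
        _ = Q * m l := by ring
    calc (E.card : ℝ) * ms m B ≤ _ := ha
      _ = _ := hb
      _ ≤ t * (Q * ms m B) := mul_le_mul_of_nonneg_left hc ht.le
      _ = t * Q * ms m B := by ring
  have h1' : (E.card : ℝ) ≤ t * Q := le_of_mul_le_mul_right h1 hB
  -- step 2
  have himp : ∀ v ∈ E, imp D e W m (g - ω v) ≤ κ₁ := fun v hv => hImp v (hV'U (hEV hv)) g hbadU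
  have himp0 : ∀ w, 0 ≤ imp D e W m w := by
    intro w
    unfold imp
    apply Finset.sum_nonneg
    intro l _
    split_ifs
    · exact hm0 l
    · exact le_rfl
  have hEκ : (E.card : ℝ) * κ₁ ≤ δ / 2 * ms m B := by
    rcases Finset.eq_empty_or_nonempty E with h | ⟨v, hv⟩
    · rw [h]
      simp only [Finset.card_empty, Nat.cast_zero, zero_mul]
      positivity
    · have hk0 : 0 ≤ κ₁ := (himp0 _).trans (himp v hv)
      calc (E.card : ℝ) * κ₁ ≤ t * Q * κ₁ := mul_le_mul_of_nonneg_right h1' hk0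
        _ ≤ _ := hκ
  set A1 : Finset Λ :=
    B.filter (fun l => ∃ v, t * Helper4.MCP.hit D e m B (g - ω v) < ms m B ∧ g + e l - ω v ∈ D) with hA1
  have hA1le : ms m A1 ≤ δ / 2 * ms m B := by
    have := hLD g
    convert this using 2
  set Av : Fin M → Finset Λ := fun v => B.filter (fun l => e l + (g - ω v) ∈ D ∧ (g - ω v) ∉ W l)
    with hAv
  have hAvle : ∀ v, ms m (Av v) ≤ imp D e W m (g - ω v) := by
    intro v
    unfold ms imp
    rw [hAv]
    simp only
    rw [Finset.sum_filter]
    apply Finset.sum_le_univ_sum_of_nonneg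
    intro l
    split_ifs
    · exact hm0 l
    · exact le_rfl
  have hcompl : B.filter (fun l => ¬ ∃ v ∈ E, g - ω v ∈ W l) ⊆ A1 ∪ E.biUnion Av := by
    intro l hl
    rw [Finset.mem_filter] at hl
    obtain ⟨hlB, hno⟩ := hl
    obtain ⟨v, hv, hvD⟩ := hbad (e l) (hJD (hSys.mem l))
    by_cases hp : ms m B ≤ t * Helper4.MCP.hit D e m B (g - ω v)
    · have hvE : v ∈ E := Finset.mem_filter.2 ⟨hv, hp⟩
      apply Finset.mem_union_right
      rw [Finset.mem_biUnion]
      refine ⟨v, hvE, ?_⟩
      rw [hAv, Finset.mem_filter]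
      refine ⟨hlB, ?_, ?_⟩
      · have : e l + (g - ω v) = g + e l - ω v := by abel
        rw [this]
        exact hvD
      · intro h
        exact hno ⟨v, hvE, h⟩
    · apply Finset.mem_union_left
      rw [hA1, Finset.mem_filter]
      exact ⟨hlB, v, lt_of_not_ge hp, hvD⟩
  have hcle : ms m (B.filter (fun l => ¬ ∃ v ∈ E, g - ω v ∈ W l)) ≤ δ * ms m B := by
    calc ms m (B.filter (fun l => ¬ ∃ v ∈ E, g - ω v ∈ W l)) ≤ ms m (A1 ∪ E.biUnion Av) :=
          ms_mono' m hm0 hcompl
      _ ≤ ms m A1 + ms m (E.biUnion Av) := ms_union_le m hm0 _ _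
      _ ≤ ms m A1 + ∑ v ∈ E, ms m (Av v) := by
          have := ms_biUnion_le m hm0 E Av
          linarith
      _ ≤ δ / 2 * ms m B + ∑ v ∈ E, κ₁ := by
          have : ∑ v ∈ E, ms m (Av v) ≤ ∑ v ∈ E, κ₁ :=
            Finset.sum_le_sum (fun v hv => (hAvle v).trans (himp v hv))
          linarith
      _ = δ / 2 * ms m B + E.card * κ₁ := by rw [Finset.sum_const, nsmul_eq_mul]
      _ ≤ δ * ms m B := by linarith
  -- step 3
  by_contra hcon
  push Not at hcon
  have hnone : ∀ v ∈ E, ms m (TB W B (g - ω v)) < (1 - η) * ms m B := by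
    intro v hv
    by_contra h
    push Not at h
    apply hcon v (hEV hv)
    have := hK _ h
    have h2 : ω v - g = -(g - ω v) := by abel
    rw [h2]
    exact K.neg_mem this
  have hcov : (1 - δ) * ms m B ≤ ms m (B.filter fun l => ∃ v ∈ E, g - ω v ∈ W l) := by
    have hsplit : ms m (B.filter (fun l => ∃ v ∈ E, g - ω v ∈ W l)) +
        ms m (B.filter (fun l => ¬ ∃ v ∈ E, g - ω v ∈ W l)) = ms m B := by
      unfold ms
      exact Finset.sum_filter_add_sum_filter_not B _ _
    linarith
  have hedge : Edge D e W m t δ η ω B g E := by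
    refine ⟨?_, ?_, hnone⟩
    · intro v hv
      exact (Finset.mem_filter.1 hv).2
    · convert hcov using 2
  obtain ⟨p, hp, hnd⟩ := hF.maxi g E hedge
  apply hnd
  rw [Finset.disjoint_left]
  intro v hv hvp
  have := hV' (hEV hv)
  rw [Finset.mem_sdiff] at this
  apply this.2
  rw [Finset.mem_biUnion]
  exact ⟨p, hp, hvp⟩

end Pool.Agent.Helper7.MCP
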